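import Mathlib

/-!
# Squarefree numbers `≡ 1` modulo `U`: a lower bound, and sets of integers stable under such factors
-/

set_option autoImplicit false

open scoped Classical

namespace Pool.Agent.L0h52.BJ.Dens

open Finset

lemma card_class {q J : ℕ} (S : Finset ℕ) (hS : S ⊆ Finset.range J)
    (h : ∀ i ∈ S, ∀ j ∈ S, i % q = j % q) : S.card ≤ J / q + 1 := by
  have h1 : ∀ j ∈ S, j / q ∈ Finset.range (J / q + 1) := by
    intro j hj
    rw [Finset.mem_range]
    have h2 := Finset.mem_range.1 (hS hj)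
    have h3 : j / q ≤ J / q := Nat.div_le_div_right h2.le
    omega
  have h2 := Finset.card_le_card_of_injOn (s := S) (t := Finset.range (J / q + 1))
    (fun j => j / q) h1 (by
      intro i hi j hj hij
      have h3 : i / q = j / q := hij
      have h4 := h i hi j hj
      rw [← Nat.div_add_mod i q, ← Nat.div_add_mod j q, h3, h4])
  rwa [Finset.card_range] at h2

lemma sum_inv_sq (R : ℕ) : ∑ n ∈ Finset.Icc 3 R, (1 : ℝ) / (n : ℝ) ^ 2 ≤ 1 / 2 := by
  have key : ∀ R : ℕ, 2 ≤ R → ∑ n ∈ Finset.Icc 3 R, (1 : ℝ) / (n : ℝ) ^ 2 ≤ 1 / 2 - 1 / R := by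
    intro R hR
    induction R, hR using Nat.le_induction with
    | base => simp
    | succ R hR ih =>
      rw [Finset.sum_Icc_succ_top (by omega)]
      have hR0 : (0 : ℝ) < R := by exact_mod_cast (by omega : 0 < R)
      have h1 : (1 : ℝ) / ((R + 1 : ℕ) : ℝ) ^ 2 ≤ 1 / R - 1 / ((R + 1 : ℕ) : ℝ) := by
        push_cast
        rw [div_sub_div _ _ hR0.ne' (by positivity), div_le_div_iff₀ (by positivity) (by positivity)]
        nlinarith
      linarith
  rcases lt_or_ge R 2 with h | h
  · rw [Finset.Icc_eq_empty (by omega)]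
    simp
  · have := key R h
    have h2 : (0 : ℝ) ≤ 1 / R := by positivity
    linarith

lemma bad_card {U J : ℕ} (hU : 2 ∣ U) :
    (((Finset.range J).filter fun j => ¬ Squarefree (1 + U * j)).card : ℝ) ≤
      J / 2 + Nat.sqrt (1 + U * J) := by
  set R := Nat.sqrt (1 + U * J) with hR
  have h1 : ((Finset.range J).filter fun j => ¬ Squarefree (1 + U * j)) ⊆
      (Finset.Icc 3 R).biUnion fun n => (Finset.range J).filter fun j =>
        Nat.Coprime n U ∧ n ^ 2 ∣ 1 + U * j := by
    intro j hj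
    rw [Finset.mem_filter, Finset.mem_range] at hj
    obtain ⟨hjJ, hj2⟩ := hj
    rw [Nat.squarefree_iff_prime_squarefree] at hj2
    push Not at hj2
    obtain ⟨p, hp, hpd⟩ := hj2
    have hcop : Nat.Coprime p U := by
      rw [hp.coprime_iff_not_dvd]
      intro hpU
      have h2 : p ∣ 1 + U * j := (Dvd.intro _ rfl : p ∣ p * p).trans hpd
      have h3 : p ∣ 1 := (Nat.dvd_add_left (Dvd.dvd.mul_right hpU j)).1 h2
      exact hp.one_lt.ne' (Nat.dvd_one.1 h3)
    have hp3 : 3 ≤ p := by
      rcases lt_or_ge p 3 with h | h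
      · exfalso
        have h2 : p = 2 := by
          have := hp.two_le
          omega
        subst h2
        have h3 : ¬ 2 ∣ U := (Nat.Prime.coprime_iff_not_dvd Nat.prime_two).1 hcop
        exact h3 hU
      · exact h
    rw [Finset.mem_biUnion]
    refine ⟨p, ?_, ?_⟩
    · rw [Finset.mem_Icc]
      refine ⟨hp3, ?_⟩
      rw [hR, Nat.le_sqrt]
      refine (Nat.le_of_dvd (by omega) hpd).trans ?_
      have : U * j ≤ U * J := Nat.mul_le_mul_left U hjJ.le
      omega
    · rw [Finset.mem_filter, Finset.mem_range]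
      exact ⟨hjJ, hcop, by rw [sq]; exact hpd⟩
  have h2 : ∀ n ∈ Finset.Icc 3 R, ((((Finset.range J).filter fun j =>
      Nat.Coprime n U ∧ n ^ 2 ∣ 1 + U * j).card : ℕ) : ℝ) ≤ J * (1 / (n : ℝ) ^ 2) + 1 := by
    intro n hn
    rw [Finset.mem_Icc] at hn
    have h3 : (((Finset.range J).filter fun j =>
      Nat.Coprime n U ∧ n ^ 2 ∣ 1 + U * j)).card ≤ J / n ^ 2 + 1 := by
      apply card_class
      · exact Finset.filter_subset _ _
      · intro i hi j hj
        rw [Finset.mem_filter] at hi hj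
        have hc : Nat.Coprime (n ^ 2) U := Nat.Coprime.pow_left 2 hi.2.1
        have h4 : (1 + U * i) ≡ (1 + U * j) [MOD n ^ 2] :=
          ((Nat.modEq_zero_iff_dvd.2 hi.2.2).trans (Nat.modEq_zero_iff_dvd.2 hj.2.2).symm)
        have h5 : U * i ≡ U * j [MOD n ^ 2] := Nat.ModEq.add_left_cancel' 1 h4
        exact Nat.ModEq.cancel_left_of_coprime hc h5
    have h4 : ((J / n ^ 2 : ℕ) : ℝ) ≤ (J : ℝ) / ((n ^ 2 : ℕ) : ℝ) := Nat.cast_div_le
    have h5 : ((((Finset.range J).filter fun j =>
      Nat.Coprime n U ∧ n ^ 2 ∣ 1 + U * j).card : ℕ) : ℝ) ≤ ((J / n ^ 2 + 1 : ℕ) : ℝ) := by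
      exact_mod_cast h3
    push_cast at h4 h5
    rw [mul_one_div]
    linarith
  have h3 : (((Finset.range J).filter fun j => ¬ Squarefree (1 + U * j)).card : ℝ) ≤
      ∑ n ∈ Finset.Icc 3 R, (J * (1 / (n : ℝ) ^ 2) + 1) := by
    refine le_trans ?_ (Finset.sum_le_sum h2)
    have h4 := (Finset.card_le_card h1).trans Finset.card_biUnion_le
    exact_mod_cast h4
  refine h3.trans ?_
  rw [Finset.sum_add_distrib, ← Finset.mul_sum]
  have h4 := sum_inv_sq R
  have h5 : (J : ℝ) * ∑ n ∈ Finset.Icc 3 R, (1 : ℝ) / (n : ℝ) ^ 2 ≤ J * (1 / 2) :=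
    mul_le_mul_of_nonneg_left h4 (by positivity)
  have h6 : ∑ n ∈ Finset.Icc 3 R, (1 : ℝ) ≤ R := by
    rw [Finset.sum_const, Nat.card_Icc, nsmul_eq_mul, mul_one]
    exact_mod_cast (by omega : R + 1 - 3 ≤ R)
  linarith

theorem sqf_low {U J : ℕ} (hU : 2 ∣ U) (hJ : 16 * (U + 1) ≤ J) :
    (J : ℝ) / 4 ≤ (((Finset.range J).filter fun j => Squarefree (1 + U * j)).card : ℝ) := by
  have h1 := bad_card (J := J) hU
  have h2 : (((Finset.range J).filter fun j => Squarefree (1 + U * j)).card : ℝ) +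
      (((Finset.range J).filter fun j => ¬ Squarefree (1 + U * j)).card : ℝ) = J := by
    have := Finset.card_filter_add_card_filter_not (s := Finset.range J)
      (fun j => Squarefree (1 + U * j))
    rw [Finset.card_range] at this
    exact_mod_cast this
  have h3 : (Nat.sqrt (1 + U * J) : ℝ) ≤ J / 4 := by
    have h4 : Nat.sqrt (1 + U * J) * Nat.sqrt (1 + U * J) ≤ 1 + U * J := Nat.sqrt_le _
    have h5 : ((Nat.sqrt (1 + U * J) : ℕ) : ℝ) ^ 2 ≤ ((J : ℝ) / 4) ^ 2 := by
      have h6 : ((Nat.sqrt (1 + U * J) : ℕ) : ℝ) ^ 2 ≤ 1 + U * J := by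
        rw [sq]
        exact_mod_cast h4
      have h7 : (16 : ℝ) * (U + 1) ≤ J := by exact_mod_cast hJ
      have h8 : (0 : ℝ) ≤ U := by positivity
      have h9 : (1 : ℝ) ≤ J := by nlinarith
      nlinarith
    exact (pow_le_pow_iff_left₀ (by positivity) (by positivity) (by norm_num)).1 h5
  linarith

/-- a set of integers that contains all the squarefree multiples `e₀ (1 + U j)` has positive lower
density -/
theorem low {F : ℤ → Prop} {e₀ : ℤ} (he₀ : e₀ ≠ 0) {U : ℕ} (hU0 : 0 < U) (hU : 2 ∣ U)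
    (h : ∀ j : ℕ, Squarefree (1 + U * j) → F (e₀ * ((1 + U * j : ℕ) : ℤ))) :
    ∃ c : ℝ, 0 < c ∧ ∃ X₀ : ℕ, ∀ X : ℕ, X₀ ≤ X →
      c * X ≤ (((Finset.Icc (-(X : ℤ)) X).filter fun e => F e).card : ℝ) := by
  set a := e₀.natAbs with ha
  have ha0 : 0 < a := Int.natAbs_pos.2 he₀
  refine ⟨1 / (8 * a * U), by positivity, 32 * a * U * (U + 1), fun X hX => ?_⟩
  set J := (X / a - 1) / U with hJ
  have hJ1 : (J : ℝ) ≥ X / (a * U) - 3 := by
    have h1 : X / a < (J + 1) * U + 1 := by
      have h2 : (X / a - 1) < (J + 1) * U := by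
        rw [hJ]
        exact Nat.lt_succ_iff.1 (by
          have := Nat.lt_div_mul_add (a := X / a - 1) hU0
          rw [Nat.add_mul, one_mul]
          omega)
      omega
    have h2 : X < (X / a + 1) * a := by
      have := Nat.lt_div_mul_add (a := X) ha0
      rw [Nat.add_mul, one_mul]
      omega
    have h3 : X < ((J + 1) * U + 1) * a := lt_of_lt_of_le h2 (Nat.mul_le_mul_right a (by omega))
    have h4 : (X : ℝ) < (((J : ℝ) + 1) * U + 1) * a := by exact_mod_cast h3
    have haR : (0 : ℝ) < a := by exact_mod_cast ha0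
    have hUR : (1 : ℝ) ≤ U := by exact_mod_cast hU0
    have h5 : (X : ℝ) / (a * U) ≤ J + 3 := by
      rw [div_le_iff₀ (by positivity)]
      nlinarith
    linarith
  have haR : (0 : ℝ) < a := by exact_mod_cast ha0
  have hUR : (1 : ℝ) ≤ U := by exact_mod_cast hU0
  have hXR : (32 : ℝ) * a * U * (U + 1) ≤ X := by exact_mod_cast hX
  have h32 : (32 : ℝ) * (U + 1) ≤ X / (a * U) := by
    rw [le_div_iff₀ (by positivity)]
    linarith
  have hJ2 : (J : ℝ) ≥ X / (a * U) / 2 := by
    have : (6 : ℝ) ≤ X / (a * U) := by nlinarith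
    linarith
  have hJ16 : 16 * (U + 1) ≤ J := by
    have : (16 : ℝ) * (U + 1) ≤ J := by linarith
    exact_mod_cast this
  have h1 := sqf_low hU hJ16
  have h2 : ((Finset.range J).filter fun j => Squarefree (1 + U * j)).card ≤
      ((Finset.Icc (-(X : ℤ)) X).filter fun e => F e).card := by
    apply Finset.card_le_card_of_injOn (fun j => e₀ * ((1 + U * j : ℕ) : ℤ))
    · intro j hj
      have hj' := Finset.mem_filter.1 (Finset.mem_coe.1 hj)
      have hjJ := Finset.mem_range.1 hj'.1
      apply Finset.mem_coe.2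
      rw [Finset.mem_filter, Finset.mem_Icc]
      refine ⟨?_, h j hj'.2⟩
      have h3 : a * (1 + U * j) ≤ X := by
        have h4 : 1 + U * J ≤ X / a := by
          have h5 : U * J ≤ X / a - 1 := by
            rw [hJ]
            exact Nat.mul_div_le _ _
          have h6 : 0 < X / a := by
            apply Nat.div_pos _ ha0
            refine le_trans ?_ hX
            have h7 : 1 ≤ U * (U + 1) := Nat.mul_pos hU0 (by omega)
            calc a ≤ 32 * a * 1 := by omega
              _ ≤ 32 * a * (U * (U + 1)) := Nat.mul_le_mul_left _ h7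
              _ = 32 * a * U * (U + 1) := by ring
          omega
        have h5 : 1 + U * j ≤ X / a := by
          have : U * j ≤ U * J := Nat.mul_le_mul_left U hjJ.le
          omega
        calc a * (1 + U * j) ≤ a * (X / a) := Nat.mul_le_mul_left a h5
          _ ≤ X := Nat.mul_div_le _ _
      have h4 : |e₀ * ((1 + U * j : ℕ) : ℤ)| ≤ X := by
        rw [abs_mul, Int.abs_eq_natAbs, ← ha, Nat.abs_cast]
        exact_mod_cast h3
      exact abs_le.1 h4
    · intro i _ j _ hij
      have h3 : e₀ * ((1 + U * i : ℕ) : ℤ) = e₀ * ((1 + U * j : ℕ) : ℤ) := hij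
      have h4 := mul_left_cancel₀ he₀ h3
      have h5 : 1 + U * i = 1 + U * j := by exact_mod_cast h4
      exact Nat.eq_of_mul_eq_mul_left hU0 (by omega)
  have h3 : (((Finset.range J).filter fun j => Squarefree (1 + U * j)).card : ℝ) ≤
      (((Finset.Icc (-(X : ℤ)) X).filter fun e => F e).card : ℝ) := by exact_mod_cast h2
  have h4 : (1 : ℝ) / (8 * a * U) * X = X / (a * U) / 2 / 4 := by
    field_simp
    ring
  rw [h4]
  linarith

end Pool.Agent.L0h52.BJ.Dens
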