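import Pool.Agent.L0h86.XF.ASM

/-!
# The twists by `n` and `-p n`
-/

set_option autoImplicit false

open scoped Classical

namespace Pool.Agent.L0h52.BJ

open Pool.Agent.L0h86.XF (PlusA PlusB RP DnF Good tt_cv plusA_iff plusB_iff)
open Pool.Agent.L0h75.IS (RZ2 So so_of_pt tgi)
open Pool.Agent.L0h1.CM (TT2 S7)
open Pool.Agent.L0h4.T6 (J)

lemma plusA_neg {n : ℤ} (h : PlusA n) : PlusA (-7 * n) := by
  obtain ⟨D, t, h0, h1, h2, h3, h4⟩ := h
  rcases h4 with rfl | rfl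
  · exact ⟨D, t, h0, h1, h2, h3, Or.inr (by ring)⟩
  · exact ⟨D, 7 * t, h0, h1, h2, mul_ne_zero (by norm_num) h3, Or.inl (by ring)⟩

lemma plusB_neg {n : ℤ} (h : PlusB n) : PlusB (-3 * n) := by
  obtain ⟨D, t, h1, h2, h5, h3, h4⟩ := h
  rcases h4 with rfl | rfl
  · exact ⟨D, t, h1, h2, h5, h3, Or.inr (by ring)⟩
  · exact ⟨D, 3 * t, h1, h2, h5, mul_ne_zero (by norm_num) h3, Or.inl (by ring)⟩

/-- the odd exponents of `p n` at the primes different from `p` -/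
lemma fac_mul {p : ℕ} (hp : p.Prime) {n : ℤ} (hn : n ≠ 0) {l : ℕ} (hl : l ≠ p) :
    (-(p : ℤ) * n).natAbs.factorization l = n.natAbs.factorization l := by
  have hn' : n.natAbs ≠ 0 := Int.natAbs_ne_zero.2 hn
  rw [Int.natAbs_mul, Int.natAbs_neg, Int.natAbs_natCast, Nat.factorization_mul hp.ne_zero hn',
    hp.factorization, Finsupp.add_apply, Finsupp.single_eq_of_ne hl, zero_add]

lemma filter_mul {p : ℕ} (hp : p.Prime) {n : ℤ} (hn : n ≠ 0) :
    ((-(p : ℤ) * n).natAbs.primeFactors.filter fun l => l ≠ p ∧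
      (-(p : ℤ) * n).natAbs.factorization l % 2 = 1) =
    (n.natAbs.primeFactors.filter fun l => l ≠ p ∧ n.natAbs.factorization l % 2 = 1) := by
  have hpn : -(p : ℤ) * n ≠ 0 := mul_ne_zero (neg_ne_zero.2 (by exact_mod_cast hp.ne_zero)) hn
  ext l
  rw [Finset.mem_filter, Finset.mem_filter]
  constructor
  · rintro ⟨h1, h2, h3⟩
    rw [fac_mul hp hn h2] at h3
    refine ⟨?_, h2, h3⟩
    rw [← Nat.support_factorization, Finsupp.mem_support_iff]
    intro h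
    rw [h] at h3
    exact absurd h3 (by norm_num)
  · rintro ⟨h1, h2, h3⟩
    rw [← fac_mul hp hn h2] at h3
    refine ⟨?_, h2, h3⟩
    rw [← Nat.support_factorization, Finsupp.mem_support_iff]
    intro h
    rw [h] at h3
    exact absurd h3 (by norm_num)

lemma dn7 {n : ℤ} (hn : n ≠ 0) : Pool.Agent.L0h74.AP.Dn (-7 * n) = Pool.Agent.L0h74.AP.Dn n := by
  have h := filter_mul (p := 7) (by norm_num) hn
  unfold Pool.Agent.L0h74.AP.Dn
  have e : Pool.Agent.L0h74.AP.Ds (-7 * n) = Pool.Agent.L0h74.AP.Ds n := h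
  rw [e]

lemma dn3 {n : ℤ} (hn : n ≠ 0) : Pool.Agent.L0h74.E3.Dn (-3 * n) = Pool.Agent.L0h74.E3.Dn n := by
  have h := filter_mul (p := 3) (by norm_num) hn
  unfold Pool.Agent.L0h74.E3.Dn
  have e : Pool.Agent.L0h74.E3.Ds (-3 * n) = Pool.Agent.L0h74.E3.Ds n := h
  rw [e]

lemma plusA_ne {n : ℤ} (h : PlusA n) : n ≠ 0 := by
  obtain ⟨D, t, h0, h1, h2, h3, h4⟩ := h
  have ht : 0 < t ^ 2 := by positivity
  rcases h4 with rfl | rfl
  · exact (mul_pos h0 ht).ne'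
  · exact mul_ne_zero (mul_ne_zero (by norm_num) h0.ne') ht.ne'

lemma plusB_ne {n : ℤ} (h : PlusB n) : n ≠ 0 := by
  obtain ⟨D, t, h1, h2, h5, h3, h4⟩ := h
  have ht : 0 < t ^ 2 := by positivity
  rcases h4 with rfl | rfl
  · exact mul_ne_zero h1.ne_zero ht.ne'
  · exact mul_ne_zero (mul_ne_zero (by norm_num) h1.ne_zero) ht.ne'

/-- the twists of `X_0(49)` by `n` and `-7 n` -/
theorem factA {n : ℤ} (h : PlusA n) (ht : TT2 (S7 (n : ℚ))) {m : ℤ} (hm : m = n ∨ m = -7 * n) :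
    RZ2 (-35 * m ^ 2) (-98 * m ^ 3) := by
  have hR : Pool.Agent.L0h74.AP.RootPlus n := plusA_iff.1 h
  have hc : Pool.Agent.L0h1.EV.TT (Pool.Agent.L0h74.AP.Dn n) := (tt_cv (f := false) hR).1 ht
  rcases hm with rfl | rfl
  · exact Pool.Agent.L0h74.E3.good49 hR hc
  · have hR' : Pool.Agent.L0h74.AP.RootPlus (-7 * n) := plusA_iff.1 (plusA_neg h)
    refine Pool.Agent.L0h74.E3.good49 hR' ?_
    rw [dn7 (plusA_ne h)]
    exact hc

/-- the twists of `X_0(36)` by `n` and `-3 n` -/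
theorem factB {n : ℤ} (h : PlusB n) (ht : TT2 (J ((n : ℚ) ^ 3))) {m : ℤ}
    (hm : m = n ∨ m = -3 * n) : RZ2 0 (m ^ 3) := by
  have hR : Pool.Agent.L0h74.E3.RootPlus n := plusB_iff.1 h
  have hc : Pool.Agent.L0h74.E3.Cr (Pool.Agent.L0h74.E3.Dn n) := (tt_cv (f := true) hR).1 ht
  rcases hm with rfl | rfl
  · exact Pool.Agent.L0h74.E3.good36 hR hc
  · have hR' : Pool.Agent.L0h74.E3.RootPlus (-3 * n) := plusB_iff.1 (plusB_neg h)
    refine Pool.Agent.L0h74.E3.good36 hR' ?_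
    rw [dn3 (plusB_ne h)]
    exact hc

/-- two entire functions that agree on a half-plane -/
lemma eq_of_half {f g : ℂ → ℂ} (hf : Differentiable ℂ f) (hg : Differentiable ℂ g) {c : ℝ}
    (h : ∀ s : ℂ, c < s.re → f s = g s) : f = g := by
  have h1 : AnalyticOnNhd ℂ f Set.univ := fun z _ => hf.analyticAt z
  have h2 : AnalyticOnNhd ℂ g Set.univ := fun z _ => hg.analyticAt z
  refine h1.eq_of_eventuallyEq h2 (z₀ := ((c + 1 : ℝ) : ℂ)) ?_
  have h3 : IsOpen {s : ℂ | c < s.re} := isOpen_lt continuous_const Complex.continuous_re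
  filter_upwards [h3.mem_nhds (show c < (((c + 1 : ℝ) : ℂ)).re by
    rw [Complex.ofReal_re]; linarith)] with s hs
  exact h s hs

end Pool.Agent.L0h52.BJ
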