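import Pool.Agent.L0h52.BJ.Dens
import Pool.Agent.L0h86.XF.FIN2

/-!
# The families of the `e` have positive lower density
-/

set_option autoImplicit false

open scoped Classical

namespace Pool.Agent.L0h52.BJ

open Pool.Agent.L0h86.XF (PlusA PlusB)

lemma plusA_mul {n m : ℤ} (h : PlusA n) (hm : 0 < m) (hs : Squarefree m) (h7 : ¬ 7 ∣ m)
    (hc : IsCoprime n m) : PlusA (n * m) := by
  obtain ⟨D, t, h0, h1, h2, h3, h4⟩ := h
  have hD : D ∣ n := by
    rcases h4 with rfl | rfl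
    · exact Dvd.intro _ rfl
    · exact ⟨-7 * t ^ 2, by ring⟩
  have hcD : IsCoprime D m := hc.of_isCoprime_of_dvd_left hD
  refine ⟨D * m, t, mul_pos h0 hm, (squarefree_mul_iff).2 ⟨hcD.isRelPrime, h1, hs⟩, ?_, h3, ?_⟩
  · intro h5
    rcases (Int.prime_iff_natAbs_prime.2 (by norm_num : Nat.Prime (7 : ℤ).natAbs)).dvd_or_dvd h5
      with h6 | h6
    · exact h2 h6
    · exact h7 h6
  · rcases h4 with rfl | rfl
    · left; ring
    · right; ring

lemma plusB_mul {n m : ℤ} (h : PlusB n) (hm : 0 < m) (hs : Squarefree m) (h3' : ¬ 3 ∣ m)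
    (h4' : m % 4 = 1) (hc : IsCoprime n m) : PlusB (n * m) := by
  obtain ⟨D, t, h1, h2, h5, h3, h4⟩ := h
  have hD : D ∣ n := by
    rcases h4 with rfl | rfl
    · exact Dvd.intro _ rfl
    · exact ⟨-3 * t ^ 2, by ring⟩
  have hcD : IsCoprime D m := hc.of_isCoprime_of_dvd_left hD
  refine ⟨D * m, t, (squarefree_mul_iff).2 ⟨hcD.isRelPrime, h1, hs⟩, ?_, ?_, h3, ?_⟩
  · intro h5
    rcases (Int.prime_iff_natAbs_prime.2 (by norm_num : Nat.Prime (3 : ℤ).natAbs)).dvd_or_dvd h5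
      with h6 | h6
    · exact h2 h6
    · exact h3' h6
  · rcases h5 with h5 | ⟨h5, h6⟩
    · left
      rw [abs_mul, abs_of_pos hm, Int.mul_emod, h5, h4']
      norm_num
    · right
      exact ⟨mul_neg_of_neg_of_pos h5 hm, Dvd.dvd.mul_right h6 m⟩
  · rcases h4 with rfl | rfl
    · left; ring
    · right; ring

theorem fam_low {H H' : Finset ℤ} {q : ℕ} (hq : 0 < q) {r : ℤ} {σ : Set ℤ} {e₀ : ℤ}
    (h0 : Squarefree e₀) (hA : ∀ M ∈ H, PlusA (e₀ * M)) (hB : ∀ M ∈ H', PlusB (e₀ * M))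
    (hr : e₀ ≡ r [ZMOD (q : ℤ)]) (hs : e₀.sign ∈ σ) {F : ℤ → Prop}
    (hF : ∀ e, Squarefree e ∧ (∀ M ∈ H, PlusA (e * M)) ∧ (∀ M ∈ H', PlusB (e * M)) ∧
      e ≡ r [ZMOD (q : ℤ)] ∧ e.sign ∈ σ → F e) :
    ∃ c : ℝ, 0 < c ∧ ∃ X₀ : ℕ, ∀ X : ℕ, X₀ ≤ X →
      c * X ≤ (((Finset.Icc (-(X : ℤ)) X).filter fun e => F e).card : ℝ) := by
  have hne : ∀ M ∈ H ∪ H', M ≠ 0 := by
    intro M hM hM0
    subst hM0
    rcases Finset.mem_union.1 hM with h | h
    · obtain ⟨D, t, h0, h1, h2, h3, h4⟩ := hA 0 h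
      have ht : 0 < t ^ 2 := by positivity
      rw [mul_zero] at h4
      rcases h4 with h4 | h4
      · exact (mul_pos h0 ht).ne h4
      · exact mul_ne_zero (mul_ne_zero (by norm_num) h0.ne') ht.ne' h4.symm
    · obtain ⟨D, t, h1, h2, h5, h3, h4⟩ := hB 0 h
      have ht : 0 < t ^ 2 := by positivity
      rw [mul_zero] at h4
      rcases h4 with h4 | h4
      · exact mul_ne_zero h1.ne_zero ht.ne' h4.symm
      · exact mul_ne_zero (mul_ne_zero (by norm_num) h1.ne_zero) ht.ne' h4.symm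
  set P : ℕ := ∏ M ∈ H ∪ H', M.natAbs with hP
  have hP0 : 0 < P := Finset.prod_pos fun M hM => Int.natAbs_pos.2 (hne M hM)
  have he0 : 0 < e₀.natAbs := Int.natAbs_pos.2 h0.ne_zero
  set U : ℕ := 84 * q * (e₀.natAbs * P) with hU
  have hU0 : 0 < U := by positivity
  have h84 : 84 ∣ U := ⟨q * (e₀.natAbs * P), by rw [hU]; ring⟩
  have hqU : q ∣ U := ⟨84 * (e₀.natAbs * P), by rw [hU]; ring⟩
  refine Dens.low h0.ne_zero hU0 ((by norm_num : 2 ∣ 84).trans h84) ?_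
  intro j hj
  set m : ℤ := ((1 + U * j : ℕ) : ℤ) with hm
  have hm' : m = 1 + (U : ℤ) * j := by rw [hm]; push_cast; ring
  have hm0 : 0 < m := by rw [hm']; positivity
  have hms : Squarefree m := by
    rw [hm]
    exact Int.squarefree_natCast.2 hj
  have hcop : ∀ x : ℤ, x ∣ (U : ℤ) → IsCoprime x m := by
    rintro x ⟨w, hw⟩
    refine ⟨-(w * j), 1, ?_⟩
    rw [hm', hw]
    ring
  have hnd : ∀ x : ℤ, x ∣ (U : ℤ) → 1 < x → ¬ x ∣ m := by
    intro x hx h1 h2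
    have h3 : x ∣ 1 := by
      have h4 : x ∣ (U : ℤ) * j := Dvd.dvd.mul_right hx _
      have h5 : m - (U : ℤ) * j = 1 := by rw [hm']; ring
      rw [← h5]
      exact dvd_sub h2 h4
    have h4 := Int.le_of_dvd one_pos h3
    omega
  have h84' : (84 : ℤ) ∣ (U : ℤ) := by exact_mod_cast h84
  have h4 : m % 4 = 1 := by
    have h5 : (4 : ℤ) ∣ (U : ℤ) * j := Dvd.dvd.mul_right ((by norm_num : (4 : ℤ) ∣ 84).trans h84') _
    omega
  have hdM : ∀ M ∈ H ∪ H', e₀ * M ∣ (U : ℤ) := by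
    intro M hM
    have h5 : M.natAbs ∣ P := Finset.dvd_prod_of_mem _ hM
    have h6 : e₀.natAbs * M.natAbs ∣ U := by
      rw [hU]
      exact Dvd.dvd.mul_left (mul_dvd_mul_left _ h5) _
    rw [← Int.natAbs_dvd, Int.natAbs_mul]
    exact_mod_cast h6
  have hde : e₀ ∣ (U : ℤ) := by
    have h6 : e₀.natAbs ∣ U := by
      rw [hU]
      exact Dvd.dvd.mul_left (Dvd.intro _ rfl) _
    rw [← Int.natAbs_dvd]
    exact_mod_cast h6
  refine hF _ ⟨(squarefree_mul_iff).2 ⟨(hcop e₀ hde).isRelPrime, h0, hms⟩, fun M hM => ?_,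
    fun M hM => ?_, ?_, ?_⟩
  · have h5 := plusA_mul (hA M hM) hm0 hms (hnd 7 ((by norm_num : (7 : ℤ) ∣ 84).trans h84')
      (by norm_num)) (hcop _ (hdM M (Finset.mem_union_left _ hM)))
    have e : e₀ * m * M = e₀ * M * m := by ring
    rw [e]
    exact h5
  · have h5 := plusB_mul (hB M hM) hm0 hms (hnd 3 ((by norm_num : (3 : ℤ) ∣ 84).trans h84')
      (by norm_num)) h4 (hcop _ (hdM M (Finset.mem_union_right _ hM)))
    have e : e₀ * m * M = e₀ * M * m := by ring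
    rw [e]
    exact h5
  · refine Int.ModEq.trans ?_ hr
    have h5 : m ≡ 1 [ZMOD (q : ℤ)] := by
      rw [hm']
      have h6 : (q : ℤ) ∣ (U : ℤ) * j := Dvd.dvd.mul_right (by exact_mod_cast hqU) _
      have h7 := (Int.modEq_zero_iff_dvd.2 h6).add_left 1
      rwa [add_zero] at h7
    have h6 := h5.mul_left e₀
    rwa [mul_one] at h6
  · rw [Int.sign_mul, Int.sign_eq_one_of_pos hm0, mul_one]
    exact hs

end Pool.Agent.L0h52.BJ
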