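import Pool.Agent.L0h52.BJ.Iso

/-!
# Points, equivariant families of points and zero-cycles over a multiquadratic field

`KK k p H` is the field generated by the square roots of `-p` and of the numbers of `H`.  If `H` is closed
under products modulo squares and the twists of `y² = x³ + a x + b` by `M` and `-p M`, `M ∈ H`, have
finitely many solutions, the points over this field are finite in number.
-/

set_option autoImplicit false
set_option linter.unusedSectionVars false

namespace Pool.Agent.L0h52.BJ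

open scoped Classical
open Pool.Agent.TH841.SH.D (Pt act Gal)
open WeierstrassCurve

variable {k : Type} [Field k] [CharZero k] {a b : k}

/-- the field generated by the square roots of `-p` and of the numbers of `H` -/
noncomputable def KK (k : Type) [Field k] (p : ℤ) (H : Finset ℤ) :
    IntermediateField k (AlgebraicClosure k) :=
  IntermediateField.adjoin k {x | x ^ 2 = -(p : AlgebraicClosure k) ∨
    ∃ M ∈ H, x ^ 2 = (M : AlgebraicClosure k)}

lemma act_comp' (W : WeierstrassCurve k) {F L L' : Type} [Field F] [Field L] [Field L']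
    [Algebra k F] [Algebra k L] [Algebra k L'] (g : L →ₐ[k] L') (f : F →ₐ[k] L) (P : Pt W F) :
    act W (g.comp f) P = act W g (act W f P) := by
  match P with
  | .zero => rfl
  | .some x y h => rfl

lemma act_inj (W : WeierstrassCurve k) {F L : Type} [Field F] [Field L] [Algebra k F] [Algebra k L]
    (f : F →ₐ[k] L) : Function.Injective (act W f) := by
  intro P Q h
  exact WeierstrassCurve.Affine.Point.map_injective _ h

section

variable {ι : Type} [Fintype ι] {r : ι → AlgebraicClosure k}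

/-- finiteness over a field that is fixed by the automorphisms fixing the roots -/
lemma finite_over {F : IntermediateField k (AlgebraicClosure k)}
    (hF : ∀ σ : Gal k, (∀ i, σ (r i) = r i) → ∀ x ∈ F, σ x = x) (hfin : (Fx a b r).Finite) :
    Finite (Pt (sw a b) F) := by
  have hfin' : Finite (Fx a b r) := hfin.to_subtype
  let g : Pt (sw a b) F → Fx a b r := fun P => ⟨act (sw a b) F.val P, by
    intro σ hσ
    rw [← act_comp']
    congr 1
    have e : σ.toAlgHom.comp F.val = F.val := by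
      apply AlgHom.ext
      intro x
      exact hF σ hσ x x.2
    rw [e]⟩
  have hg : Function.Injective g := by
    intro P Q h
    exact act_inj _ _ (Subtype.mk.inj h)
  exact Finite.of_injective g hg

/-- the fields generated by the roots -/
lemma fix_adjoin {S : Set (AlgebraicClosure k)} (hS : ∀ x ∈ S, ∃ i, x ^ 2 = r i ^ 2) {σ : Gal k}
    (hσ : ∀ i, σ (r i) = r i) {x : AlgebraicClosure k} (hx : x ∈ IntermediateField.adjoin k S) :
    σ x = x := by
  induction hx using IntermediateField.adjoin_induction with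
  | mem x hx =>
    obtain ⟨i, hi⟩ := hS x hx
    rcases sq_eq_sq_iff_eq_or_eq_neg.1 hi with h | h
    · rw [h, hσ]
    · rw [h, map_neg, hσ]
  | algebraMap x => exact σ.commutes x
  | add x y _ _ h1 h2 => rw [map_add, h1, h2]
  | inv x _ h => rw [map_inv₀, h]
  | mul x y _ _ h1 h2 => rw [map_mul, h1, h2]

/-- the equivariant families of points -/
lemma finite_lattice (hfin : (Fx a b r).Finite) {n : ℕ} (ρ : Gal k →* Matrix (Fin n) (Fin n) ℤ)
    (hρ : ∀ σ : Gal k, (∀ i, σ (r i) = r i) → ρ σ = 1) :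
    {f : Fin n → Pt (sw a b) (AlgebraicClosure k) |
      ∀ σ i, f i = ∑ j, ρ σ i j • act (sw a b) σ.toAlgHom (f j)}.Finite := by
  have h1 : (Set.pi Set.univ fun _ : Fin n => Fx a b r).Finite := Set.Finite.pi fun _ => hfin
  refine h1.subset ?_
  intro f hf i _ σ hσ
  have h2 := hf σ i
  rw [hρ σ hσ] at h2
  have h3 : ∑ j, (1 : Matrix (Fin n) (Fin n) ℤ) i j • act (sw a b) σ.toAlgHom (f j) =
      act (sw a b) σ.toAlgHom (f i) := by
    rw [Finset.sum_eq_single i]
    · rw [Matrix.one_apply_eq, one_smul]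
    · intro j _ hj
      rw [Matrix.one_apply_ne (Ne.symm hj), zero_smul]
    · intro h
      exact absurd (Finset.mem_univ i) h
  rw [h3] at h2
  exact h2.symm

end

/-- closed under products modulo squares -/
def Mul (H : Finset ℤ) : Prop :=
  1 ∈ H ∧ (0 : ℤ) ∉ H ∧ ∀ M ∈ H, ∀ N ∈ H, ∃ L ∈ H, ∃ t : ℤ, t ≠ 0 ∧ M * N = L * t ^ 2

section main

variable {p : ℤ} {H : Finset ℤ}

/-- the radicands -/
def rd (p : ℤ) (H : Finset ℤ) : Option H → ℤ
  | none => -p
  | some M => M.1

lemma rd_ne (hp : p ≠ 0) (hH : Mul H) (i : Option H) : rd p H i ≠ 0 := by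
  match i with
  | none => exact neg_ne_zero.2 hp
  | some M => exact fun h => hH.2.1 (h ▸ M.2)

lemma prod_rd (hp : p ≠ 0) (hH : Mul H) (I : Finset (Option H)) :
    ∃ L ∈ H, ∃ t : ℤ, t ≠ 0 ∧
      (∏ i ∈ I, rd p H i = L * t ^ 2 ∨ ∏ i ∈ I, rd p H i = -p * L * t ^ 2) := by
  induction I using Finset.induction_on with
  | empty => exact ⟨1, hH.1, 1, one_ne_zero, Or.inl (by simp)⟩
  | insert i I hi ih =>
    obtain ⟨L, hL, t, ht, h⟩ := ih
    rw [Finset.prod_insert hi]
    match i with
    | none =>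
      rcases h with h | h
      · refine ⟨L, hL, t, ht, Or.inr ?_⟩
        rw [h]
        show -p * (L * t ^ 2) = _
        ring
      · refine ⟨L, hL, p * t, mul_ne_zero hp ht, Or.inl ?_⟩
        rw [h]
        show -p * (-p * L * t ^ 2) = _
        ring
    | some M =>
      obtain ⟨L', hL', t', ht', h'⟩ := hH.2.2 M.1 M.2 L hL
      refine ⟨L', hL', t * t', mul_ne_zero ht ht', ?_⟩
      rcases h with h | h
      · left
        rw [h]
        show M.1 * (L * t ^ 2) = _
        linear_combination t ^ 2 * h'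
      · right
        rw [h]
        show M.1 * (-p * L * t ^ 2) = _
        linear_combination -p * t ^ 2 * h'

variable (p H) in
/-- the roots -/
lemma exists_roots : ∃ r : Option H → AlgebraicClosure k, ∀ i, r i ^ 2 =
    algebraMap k (AlgebraicClosure k) ((rd p H i : ℤ) : k) := by
  have h1 : ∀ i : Option H, ∃ r : AlgebraicClosure k, r ^ 2 =
      algebraMap k (AlgebraicClosure k) ((rd p H i : ℤ) : k) := fun i =>
    IsAlgClosed.exists_pow_nat_eq _ (by norm_num)
  exact ⟨fun i => (h1 i).choose, fun i => (h1 i).choose_spec⟩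

theorem fx_finite (hp : p ≠ 0) (hH : Mul H) {r : Option H → AlgebraicClosure k}
    (hr : ∀ i, r i ^ 2 = algebraMap k (AlgebraicClosure k) ((rd p H i : ℤ) : k))
    (hfin : ∀ M ∈ H, ∀ m : ℤ, (m = M ∨ m = -p * M) →
      {q : k × k | q.2 ^ 2 = q.1 ^ 3 + a * (m : k) ^ 2 * q.1 + b * (m : k) ^ 3}.Finite) :
    (Fx a b r).Finite := by
  have hm : ∀ i, (((rd p H i : ℤ)) : k) ≠ 0 := fun i => by
    have := rd_ne hp hH i
    exact_mod_cast this
  refine fix_finite hm hr ?_
  intro I
  obtain ⟨L, hL, t, ht, h⟩ := prod_rd hp hH I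
  have ht' : (t : k) ≠ 0 := by exact_mod_cast ht
  have hprod : ∏ i ∈ I, (((rd p H i : ℤ)) : k) = ((∏ i ∈ I, rd p H i : ℤ) : k) := by
    push_cast
    rfl
  refine ⟨(t : k)⁻¹, inv_ne_zero ht', ?_⟩
  rw [hprod]
  rcases h with h | h
  · have e : ((t : k)⁻¹) ^ 2 * ((∏ i ∈ I, rd p H i : ℤ) : k) = (L : k) := by
      rw [h]
      push_cast
      field_simp
    rw [e]
    exact hfin L hL L (Or.inl rfl)
  · have e : ((t : k)⁻¹) ^ 2 * ((∏ i ∈ I, rd p H i : ℤ) : k) = ((-p * L : ℤ) : k) := by
      rw [h]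
      push_cast
      field_simp
    rw [e]
    exact hfin L hL (-p * L) (Or.inr rfl)

lemma mem_set {r : Option H → AlgebraicClosure k}
    (hr : ∀ i, r i ^ 2 = algebraMap k (AlgebraicClosure k) ((rd p H i : ℤ) : k)) :
    ∀ x ∈ {x : AlgebraicClosure k | x ^ 2 = -(p : AlgebraicClosure k) ∨
      ∃ M ∈ H, x ^ 2 = (M : AlgebraicClosure k)}, ∃ i, x ^ 2 = r i ^ 2 := by
  rintro x (hx | ⟨M, hM, hx⟩)
  · refine ⟨none, ?_⟩
    rw [hr none, hx, map_intCast]
    show _ = ((-p : ℤ) : AlgebraicClosure k)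
    push_cast
    rfl
  · refine ⟨some ⟨M, hM⟩, ?_⟩
    rw [hr (some ⟨M, hM⟩), hx, map_intCast]
    rfl

lemma r_mem {r : Option H → AlgebraicClosure k}
    (hr : ∀ i, r i ^ 2 = algebraMap k (AlgebraicClosure k) ((rd p H i : ℤ) : k)) (i : Option H) :
    r i ∈ KK k p H := by
  apply IntermediateField.subset_adjoin
  match i with
  | none =>
    left
    rw [hr none, map_intCast]
    show ((-p : ℤ) : AlgebraicClosure k) = _
    push_cast
    rfl
  | some M =>
    right
    refine ⟨M.1, M.2, ?_⟩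
    rw [hr (some M), map_intCast]
    rfl

/-- **points over the subfields and equivariant families of points** -/
theorem main (hp : p ≠ 0) (hH : Mul H)
    (hfin : ∀ M ∈ H, ∀ m : ℤ, (m = M ∨ m = -p * M) →
      {q : k × k | q.2 ^ 2 = q.1 ^ 3 + a * (m : k) ^ 2 * q.1 + b * (m : k) ^ 3}.Finite) :
    (∀ F : IntermediateField k (AlgebraicClosure k), F ≤ KK k p H → Finite (Pt (sw a b) F)) ∧
    ∀ (n : ℕ) (ρ : Gal k →* Matrix (Fin n) (Fin n) ℤ),
      (∀ σ : Gal k, (∀ x ∈ KK k p H, σ x = x) → ρ σ = 1) →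
      {f : Fin n → Pt (sw a b) (AlgebraicClosure k) |
        ∀ σ i, f i = ∑ j, ρ σ i j • act (sw a b) σ.toAlgHom (f j)}.Finite := by
  obtain ⟨r, hr⟩ := exists_roots (k := k) p H
  have h1 := fx_finite hp hH hr hfin
  have h2 : ∀ σ : Gal k, (∀ i, σ (r i) = r i) → ∀ x ∈ KK k p H, σ x = x := fun σ hσ x hx =>
    fix_adjoin (mem_set hr) hσ hx
  refine ⟨fun F hF => finite_over (fun σ hσ x hx => h2 σ hσ x (hF hx)) h1, fun n ρ hρ =>
    finite_lattice h1 ρ fun σ hσ => hρ σ (h2 σ hσ)⟩

end main

end Pool.Agent.L0h52.BJ
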