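import Pool.Agent.L0h52.BT.Gal

/-!
# Points over multiquadratic fields

If the quadratic twists of `y² = x³ + a x + b` by all the products of the `m i` have finitely many points
over `ℚ`, there are finitely many points over the field generated by the square roots of the `m i`.
-/

set_option autoImplicit false

namespace Pool.Agent.L0h52.BJ

open scoped Classical
open Pool.Agent.TH841.SH.D (Pt act Gal)
open WeierstrassCurve

variable {k : Type} [Field k] [CharZero k]

/-- the curve `y² = x³ + a x + b` -/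
def sw (a b : k) : WeierstrassCurve k := ⟨0, 0, 0, a, b⟩

variable {a b : k}

lemma act_some (σ : Gal k) {x y : (AlgebraicClosure k)} (h : ((sw a b).baseChange (AlgebraicClosure k)).toAffine.Nonsingular x y) :
    ∃ h', act (sw a b) σ.toAlgHom (Affine.Point.some x y h) = Affine.Point.some (σ x) (σ y) h' :=
  ⟨(Affine.baseChange_nonsingular (W := sw a b) (f := σ.toAlgHom) σ.toAlgHom.injective x y).mpr h, rfl⟩

lemma negY_eq (x y : (AlgebraicClosure k)) : ((sw a b).baseChange (AlgebraicClosure k)).toAffine.negY x y = -y := by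
  have ha1 : ((sw a b).baseChange (AlgebraicClosure k)).toAffine.a₁ = 0 := map_zero _
  have ha3 : ((sw a b).baseChange (AlgebraicClosure k)).toAffine.a₃ = 0 := map_zero _
  unfold Affine.negY
  rw [ha1, ha3]
  ring

lemma eqn {x y : (AlgebraicClosure k)} (h : ((sw a b).baseChange (AlgebraicClosure k)).toAffine.Nonsingular x y) :
    y ^ 2 = x ^ 3 + algebraMap k (AlgebraicClosure k) a * x + algebraMap k (AlgebraicClosure k) b := by
  have h1 := ((Affine.nonsingular_iff _ _).1 h).1
  rw [Affine.equation_iff] at h1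
  have ha1 : ((sw a b).baseChange (AlgebraicClosure k)).toAffine.a₁ = 0 := map_zero _
  have ha2 : ((sw a b).baseChange (AlgebraicClosure k)).toAffine.a₂ = 0 := map_zero _
  have ha3 : ((sw a b).baseChange (AlgebraicClosure k)).toAffine.a₃ = 0 := map_zero _
  have ha4 : ((sw a b).baseChange (AlgebraicClosure k)).toAffine.a₄ = algebraMap k (AlgebraicClosure k) a := rfl
  have ha6 : ((sw a b).baseChange (AlgebraicClosure k)).toAffine.a₆ = algebraMap k (AlgebraicClosure k) b := rfl
  rw [ha1, ha2, ha3, ha4, ha6] at h1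
  linear_combination h1

lemma neg_some {x y : (AlgebraicClosure k)} (h : ((sw a b).baseChange (AlgebraicClosure k)).toAffine.Nonsingular x y) :
    ∃ h', (-(show Pt (sw a b) (AlgebraicClosure k) from Affine.Point.some x y h)) = Affine.Point.some x (-y) h' := by
  have h1 : (-(show Pt (sw a b) (AlgebraicClosure k) from Affine.Point.some x y h)) =
      Affine.Point.some x (((sw a b).baseChange (AlgebraicClosure k)).toAffine.negY x y)
        ((Affine.nonsingular_neg x y).mpr h) := rfl
  have h2 : ((sw a b).baseChange (AlgebraicClosure k)).toAffine.Nonsingular x (-y) := by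
    rw [← negY_eq (a := a) (b := b) x y]
    exact (Affine.nonsingular_neg x y).mpr h
  refine ⟨h2, ?_⟩
  rw [h1]
  congr 1
  exact negY_eq x y

/-- a number fixed by the Galois group is rational -/
lemma fixed {x : (AlgebraicClosure k)} (h : ∀ σ : Gal k, σ x = x) : ∃ q : k, algebraMap k (AlgebraicClosure k) q = x :=
  (InfiniteGalois.mem_range_algebraMap_iff_fixed (k := k) (K := (AlgebraicClosure k)) x).2 h

/-- the points on which the Galois group acts by the character of `r = √m` -/
def Iso (a b : k) (r : (AlgebraicClosure k)) : Set (Pt (sw a b) (AlgebraicClosure k)) :=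
  {P | ∀ σ : Gal k, (σ r = r → act (sw a b) σ.toAlgHom P = P) ∧
    (σ r = -r → act (sw a b) σ.toAlgHom P = -P)}

lemma sq_cases {r : (AlgebraicClosure k)} {m : k} (hr : r ^ 2 = algebraMap k (AlgebraicClosure k) m) (σ : Gal k) : σ r = r ∨ σ r = -r := by
  have h : (σ r) ^ 2 = r ^ 2 := by
    rw [← map_pow, hr, AlgEquiv.commutes]
  exact sq_eq_sq_iff_eq_or_eq_neg.1 h

theorem iso_finite {r : (AlgebraicClosure k)} {m : k} (hm : m ≠ 0) (hr : r ^ 2 = algebraMap k (AlgebraicClosure k) m)
    (hfin : {q : k × k | q.2 ^ 2 = q.1 ^ 3 + a * m ^ 2 * q.1 + b * m ^ 3}.Finite) : (Iso a b r).Finite := by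
  have hm' : algebraMap k (AlgebraicClosure k) m ≠ 0 := (map_ne_zero _).2 hm
  have hr0 : r ≠ 0 := by
    rintro rfl
    apply hm'
    rw [← hr]
    ring
  set T := {q : k × k | q.2 ^ 2 = q.1 ^ 3 + a * m ^ 2 * q.1 + b * m ^ 3} with hT
  have h1 : (⋃ q ∈ T, {P : Pt (sw a b) (AlgebraicClosure k) | ∃ x y h, P = Affine.Point.some x y h ∧
      algebraMap k (AlgebraicClosure k) m * x = algebraMap k (AlgebraicClosure k) q.1 ∧ algebraMap k (AlgebraicClosure k) m * r * y = algebraMap k (AlgebraicClosure k) q.2}).Finite := by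
    apply Set.Finite.biUnion hfin
    intro q _
    apply Set.Subsingleton.finite
    rintro P ⟨x, y, h, hP, h2, h3⟩ P' ⟨x', y', h', hP', h2', h3'⟩
    have e1 : x = x' := mul_left_cancel₀ hm' (h2.trans h2'.symm)
    have e2 : y = y' := mul_left_cancel₀ (mul_ne_zero hm' hr0) (h3.trans h3'.symm)
    subst e1 e2
    rw [hP, hP']
  refine ((Set.finite_singleton (0 : Pt (sw a b) (AlgebraicClosure k))).union h1).subset ?_
  intro P hP
  match P, hP with
  | .zero, _ => exact Or.inl rfl
  | .some x y h, hP =>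
    right
    have h2 : ∀ σ : Gal k, σ x = x ∧ ((σ r = r → σ y = y) ∧ (σ r = -r → σ y = -y)) := by
      intro σ
      obtain ⟨h3, h4⟩ := hP σ
      obtain ⟨h', e⟩ := act_some σ h
      obtain ⟨h'', e'⟩ := neg_some h
      rw [e] at h3 h4
      have hx : σ x = x := by
        rcases sq_cases hr σ with h5 | h5
        · exact (Affine.Point.some.inj (h3 h5)).1
        · have h6 := (h4 h5).trans e'
          exact (Affine.Point.some.inj h6).1
      refine ⟨hx, fun h5 => (Affine.Point.some.inj (h3 h5)).2, fun h5 => ?_⟩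
      have h6 := (h4 h5).trans e'
      exact (Affine.Point.some.inj h6).2
    obtain ⟨u, hu⟩ := fixed (x := algebraMap k (AlgebraicClosure k) m * x) (fun σ => by
      rw [map_mul, AlgEquiv.commutes, (h2 σ).1])
    obtain ⟨v, hv⟩ := fixed (x := algebraMap k (AlgebraicClosure k) m * r * y) (fun σ => by
      rw [map_mul, map_mul, AlgEquiv.commutes]
      rcases sq_cases hr σ with h5 | h5
      · rw [h5, (h2 σ).2.1 h5]
      · rw [h5, (h2 σ).2.2 h5]; ring)
    refine Set.mem_iUnion₂.2 ⟨(u, v), ?_, x, y, h, rfl, hu.symm, hv.symm⟩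
    show v ^ 2 = u ^ 3 + a * m ^ 2 * u + b * m ^ 3
    apply (algebraMap k (AlgebraicClosure k)).injective
    simp only [map_add, map_mul, map_pow]
    rw [hu, hv]
    have h6 := eqn h
    rw [mul_pow, mul_pow, h6, hr]
    ring

/-! ### finite fibres of the doubling -/

lemma tors_two : {P : Pt (sw a b) (AlgebraicClosure k) | 2 • P = 0}.Finite := by
  have h0 : {x : (AlgebraicClosure k) | x ^ 3 + algebraMap k (AlgebraicClosure k) a * x + algebraMap k (AlgebraicClosure k) b = 0}.Finite := by
    have hp : (Polynomial.X ^ 3 + (Polynomial.C (algebraMap k (AlgebraicClosure k) a) * Polynomial.X +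
        Polynomial.C (algebraMap k (AlgebraicClosure k) b)) : Polynomial (AlgebraicClosure k)) ≠ 0 := by
      apply Polynomial.Monic.ne_zero
      apply Polynomial.monic_X_pow_add
      refine lt_of_le_of_lt (Polynomial.degree_linear_le) (by norm_num)
    refine (Polynomial.finite_setOf_isRoot hp).subset ?_
    intro x hx
    show Polynomial.IsRoot _ x
    rw [Polynomial.IsRoot.def]
    simp only [Polynomial.eval_add, Polynomial.eval_pow, Polynomial.eval_X, Polynomial.eval_mul,
      Polynomial.eval_C]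
    rw [← add_assoc]
    exact hx
  have h1 : (⋃ x ∈ {x : (AlgebraicClosure k) | x ^ 3 + algebraMap k (AlgebraicClosure k) a * x + algebraMap k (AlgebraicClosure k) b = 0},
      {P : Pt (sw a b) (AlgebraicClosure k) | ∃ h, P = Affine.Point.some x 0 h}).Finite := by
    apply Set.Finite.biUnion h0
    intro x _
    apply Set.Subsingleton.finite
    rintro P ⟨h, hP⟩ P' ⟨h', hP'⟩
    rw [hP, hP']
  refine ((Set.finite_singleton (0 : Pt (sw a b) (AlgebraicClosure k))).union h1).subset ?_
  intro P hP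
  match P, hP with
  | .zero, _ => exact Or.inl rfl
  | .some x y h, hP =>
    right
    have h2 : (show Pt (sw a b) (AlgebraicClosure k) from Affine.Point.some x y h) =
        -(show Pt (sw a b) (AlgebraicClosure k) from Affine.Point.some x y h) := by
      have h3 : 2 • (show Pt (sw a b) (AlgebraicClosure k) from Affine.Point.some x y h) = 0 := hP
      rw [two_nsmul] at h3
      exact eq_neg_of_add_eq_zero_left h3
    obtain ⟨h'', e'⟩ := neg_some h
    have h4 := (Affine.Point.some.inj (h2.trans e')).2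
    have hy : y = 0 := by
      have : (2 : (AlgebraicClosure k)) * y = 0 := by linear_combination h4
      rcases mul_eq_zero.1 this with h5 | h5
      · exact absurd h5 (by norm_num)
      · exact h5
    subst hy
    refine Set.mem_iUnion₂.2 ⟨x, ?_, h, rfl⟩
    have h6 := eqn h
    show x ^ 3 + algebraMap k (AlgebraicClosure k) a * x + algebraMap k (AlgebraicClosure k) b = 0
    rw [← h6]
    ring

lemma fib_two (Q : Pt (sw a b) (AlgebraicClosure k)) : {P : Pt (sw a b) (AlgebraicClosure k) | 2 • P = Q}.Finite := by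
  by_cases hne : ∃ P₀ : Pt (sw a b) (AlgebraicClosure k), 2 • P₀ = Q
  · obtain ⟨P₀, h0⟩ := hne
    refine ((tors_two (a := a) (b := b)).image (fun P => P + P₀)).subset ?_
    intro P hP
    refine ⟨P - P₀, ?_, sub_add_cancel _ _⟩
    have h1 : 2 • P = Q := hP
    show 2 • (P - P₀) = 0
    rw [nsmul_sub, h1, h0, sub_self]
  · refine Set.finite_empty.subset ?_
    intro P hP
    exact hne ⟨P, hP⟩

lemma fib_pow (n : ℕ) : ∀ Q : Pt (sw a b) (AlgebraicClosure k), {P : Pt (sw a b) (AlgebraicClosure k) | 2 ^ n • P = Q}.Finite := by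
  induction n with
  | zero =>
    intro Q
    refine (Set.finite_singleton Q).subset ?_
    intro P hP
    have h1 : 2 ^ 0 • P = Q := hP
    rw [pow_zero, one_nsmul] at h1
    exact h1
  | succ n ih =>
    intro Q
    have h1 : (⋃ Q' ∈ {P : Pt (sw a b) (AlgebraicClosure k) | 2 ^ n • P = Q}, {P : Pt (sw a b) (AlgebraicClosure k) | 2 • P = Q'}).Finite :=
      Set.Finite.biUnion (ih Q) fun Q' _ => fib_two Q'
    refine h1.subset ?_
    intro P hP
    rw [Set.mem_iUnion₂]
    refine ⟨2 • P, ?_, rfl⟩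
    show 2 ^ n • (2 • P) = Q
    rw [← mul_nsmul', ← pow_succ]
    exact hP

/-! ### the characters -/

section chars

variable {ι : Type} [Fintype ι] (r : ι → (AlgebraicClosure k))

/-- the signs of an automorphism -/
noncomputable def sg (σ : Gal k) : ι → ℤˣ := fun i => if σ (r i) = r i then 1 else -1

variable {r} {m : ι → k} (hm : ∀ i, m i ≠ 0) (hr : ∀ i, r i ^ 2 = algebraMap k (AlgebraicClosure k) (m i))

include hm hr in
lemma r_ne (i : ι) : r i ≠ 0 := by
  intro h
  have h1 := hr i
  rw [h] at h1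
  have h2 : algebraMap k (AlgebraicClosure k) (m i) ≠ 0 := (map_ne_zero _).2 (hm i)
  apply h2
  rw [← h1]
  ring

include hr in
lemma sg_spec (σ : Gal k) (i : ι) : σ (r i) = ((sg r σ i : ℤˣ) : ℤ) * r i := by
  unfold sg
  split_ifs with h
  · rw [h]; simp
  · rcases sq_cases (hr i) σ with h1 | h1
    · exact absurd h1 h
    · rw [h1]; simp

include hm hr in
lemma sg_unique {σ : Gal k} {i : ι} {u : ℤˣ} (h : σ (r i) = ((u : ℤˣ) : ℤ) * r i) : sg r σ i = u := by
  have h1 := sg_spec hr σ i
  rw [h] at h1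
  have h2 := mul_right_cancel₀ (r_ne hm hr i) h1
  have h3 : ((u : ℤˣ) : ℤ) = ((sg r σ i : ℤˣ) : ℤ) := by exact_mod_cast h2
  exact (Units.ext h3).symm

include hm hr in
lemma sg_mul (σ τ : Gal k) : sg r (σ * τ) = sg r σ * sg r τ := by
  funext i
  apply sg_unique hm hr
  show σ (τ (r i)) = _
  rw [sg_spec hr τ i, map_mul, sg_spec hr σ i, map_intCast]
  simp only [Pi.mul_apply, Units.val_mul, Int.cast_mul]
  ring

lemma sg_one_iff (σ : Gal k) : sg r σ = 1 ↔ ∀ i, σ (r i) = r i := by
  constructor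
  · intro h i
    have h1 := congrFun h i
    unfold sg at h1
    by_contra h2
    rw [if_neg h2] at h1
    exact absurd (show (-1 : ℤˣ) = 1 from h1) (by decide)
  · intro h
    funext i
    unfold sg
    rw [if_pos (h i)]
    rfl

variable (r)

/-- the signs that occur -/
noncomputable def rg : Finset (ι → ℤˣ) := Finset.univ.filter fun e => ∃ σ : Gal k, sg r σ = e

/-- an automorphism with given signs -/
noncomputable def lft (e : ι → ℤˣ) : Gal k := if h : ∃ σ : Gal k, sg r σ = e then h.choose else 1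

variable {r}

lemma lft_spec {e : ι → ℤˣ} (h : e ∈ rg r) : sg r (lft r e) = e := by
  have h1 : ∃ σ : Gal k, sg r σ = e := (Finset.mem_filter.1 h).2
  unfold lft
  rw [dif_pos h1]
  exact h1.choose_spec

lemma mem_rg (σ : Gal k) : sg r σ ∈ rg r := Finset.mem_filter.2 ⟨Finset.mem_univ _, σ, rfl⟩

lemma act_mul (σ τ : Gal k) (P : Pt (sw a b) (AlgebraicClosure k)) :
    act (sw a b) (σ * τ).toAlgHom P = act (sw a b) σ.toAlgHom (act (sw a b) τ.toAlgHom P) := by
  match P with
  | .zero => rfl
  | .some x y h => rfl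

lemma act_one (P : Pt (sw a b) (AlgebraicClosure k)) : act (sw a b) (1 : Gal k).toAlgHom P = P := by
  match P with
  | .zero => rfl
  | .some x y h => rfl

/-- the points fixed by the automorphisms that fix all the roots -/
def Fx (a b : k) (r : ι → (AlgebraicClosure k)) : Set (Pt (sw a b) (AlgebraicClosure k)) :=
  {P | ∀ σ : Gal k, (∀ i, σ (r i) = r i) → act (sw a b) σ.toAlgHom P = P}

include hm hr in
lemma act_eq {P : Pt (sw a b) (AlgebraicClosure k)} (hP : P ∈ Fx a b r) {σ τ : Gal k} (h : sg r σ = sg r τ) :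
    act (sw a b) σ.toAlgHom P = act (sw a b) τ.toAlgHom P := by
  have h1 : sg r (τ⁻¹ * σ) = 1 := by
    have h2 : sg r (τ⁻¹ * τ) = 1 := by
      rw [inv_mul_cancel, sg_one_iff]
      intro i; rfl
    rw [sg_mul hm hr] at h2 ⊢
    rw [h, h2]
  have h3 := hP (τ⁻¹ * σ) ((sg_one_iff _).1 h1)
  have h4 : σ = τ * (τ⁻¹ * σ) := by rw [mul_inv_cancel_left]
  rw [h4, act_mul, h3]

/-- the component of a point -/
noncomputable def comp (r : ι → (AlgebraicClosure k)) (P : Pt (sw a b) (AlgebraicClosure k)) (I : Finset ι) : Pt (sw a b) (AlgebraicClosure k) :=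
  ∑ e ∈ rg r, (∏ i ∈ I, ((e i : ℤˣ) : ℤ)) • act (sw a b) (lft r e).toAlgHom P

include hm hr in
lemma act_comp {P : Pt (sw a b) (AlgebraicClosure k)} (hP : P ∈ Fx a b r) (I : Finset ι) (τ : Gal k) :
    act (sw a b) τ.toAlgHom (comp r P I) = (∏ i ∈ I, ((sg r τ i : ℤˣ) : ℤ)) • comp r P I := by
  unfold comp
  rw [map_sum, Finset.smul_sum]
  refine Finset.sum_bij' (fun e _ => sg r τ * e) (fun e _ => (sg r τ)⁻¹ * e) ?_ ?_ ?_ ?_ ?_
  · intro e he
    have h1 : sg r τ * e = sg r (τ * lft r e) := by rw [sg_mul hm hr, lft_spec he]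
    rw [h1]
    exact mem_rg _
  · intro e he
    have h1 : (sg r τ)⁻¹ * e = sg r (τ⁻¹ * lft r e) := by
      have h2 : sg r τ⁻¹ = (sg r τ)⁻¹ := by
        rw [eq_inv_iff_mul_eq_one, ← sg_mul hm hr, inv_mul_cancel, sg_one_iff]
        intro i; rfl
      rw [sg_mul hm hr, lft_spec he, h2]
    rw [h1]
    exact mem_rg _
  · intro e _
    exact inv_mul_cancel_left _ _
  · intro e _
    exact mul_inv_cancel_left _ _
  · intro e he
    have h1 : sg r τ * e ∈ rg r := by
      have h1 : sg r τ * e = sg r (τ * lft r e) := by rw [sg_mul hm hr, lft_spec he]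
      rw [h1]
      exact mem_rg _
    rw [map_zsmul, ← act_mul]
    rw [act_eq hm hr hP (σ := τ * lft r e) (τ := lft r (sg r τ * e)) (by
      rw [lft_spec h1, sg_mul hm hr, lft_spec he])]
    rw [smul_smul]
    congr 1
    rw [← Finset.prod_mul_distrib]
    apply Finset.prod_congr rfl
    intro i _
    have h2 : ((sg r τ i : ℤˣ) : ℤ) * ((sg r τ i : ℤˣ) : ℤ) = 1 := by
      rw [← Units.val_mul, Int.units_mul_self, Units.val_one]
    simp only [Pi.mul_apply, Units.val_mul]
    rw [← mul_assoc, h2, one_mul]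

lemma sum_comp (P : Pt (sw a b) (AlgebraicClosure k)) (hP : P ∈ Fx a b r) :
    ∑ I ∈ (Finset.univ : Finset ι).powerset, comp r P I = 2 ^ (Fintype.card ι) • P := by
  unfold comp
  rw [Finset.sum_comm]
  simp only [← Finset.sum_smul]
  have h0 : ∀ e : ι → ℤˣ, ∑ I ∈ (Finset.univ : Finset ι).powerset, ∏ i ∈ I, ((e i : ℤˣ) : ℤ) =
      ∏ i, (1 + ((e i : ℤˣ) : ℤ)) := fun e => (Finset.prod_one_add _).symm
  simp only [h0]
  have h1 : (1 : ι → ℤˣ) ∈ rg r := by
    have h2 : sg r (1 : Gal k) = 1 := (sg_one_iff _).2 fun i => rfl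
    rw [← h2]
    exact mem_rg _
  rw [Finset.sum_eq_single_of_mem 1 h1]
  · have h3 : act (sw a b) (lft r 1).toAlgHom P = P := hP _ ((sg_one_iff _).1 (lft_spec h1))
    rw [h3]
    have h4 : ∏ i : ι, (1 + (((1 : ι → ℤˣ) i : ℤˣ) : ℤ)) = ((2 ^ (Fintype.card ι) : ℕ) : ℤ) := by
      simp only [Pi.one_apply, Units.val_one]
      rw [Finset.prod_const, Finset.card_univ]
      push_cast
      norm_num
    rw [h4, natCast_zsmul]
  · intro e _ hne
    have h3 : ∃ i, e i = -1 := by
      by_contra hcon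
      push Not at hcon
      apply hne
      funext i
      rcases Int.units_eq_one_or (e i) with h | h
      · exact h
      · exact absurd h (hcon i)
    obtain ⟨i, hi⟩ := h3
    have h4 : ∏ i, (1 + ((e i : ℤˣ) : ℤ)) = 0 := by
      apply Finset.prod_eq_zero (Finset.mem_univ i)
      rw [hi]; norm_num
    rw [h4, zero_smul]

include hm hr in
/-- finitely many points over the field generated by the square roots -/
theorem fix_finite (hfin : ∀ I : Finset ι, ∃ c : k, c ≠ 0 ∧
    {q : k × k | q.2 ^ 2 = q.1 ^ 3 + a * (c ^ 2 * ∏ i ∈ I, m i) ^ 2 * q.1 +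
      b * (c ^ 2 * ∏ i ∈ I, m i) ^ 3}.Finite) : (Fx a b r).Finite := by
  have h1 : ∀ I : Finset ι, ∃ F : Set (Pt (sw a b) (AlgebraicClosure k)), F.Finite ∧ ∀ P ∈ Fx a b r, comp r P I ∈ F := by
    intro I
    obtain ⟨c, hc, hf⟩ := hfin I
    have hprod : ∏ i ∈ I, m i ≠ 0 := Finset.prod_ne_zero_iff.2 fun i _ => hm i
    have hc' : algebraMap k (AlgebraicClosure k) c ≠ 0 := (map_ne_zero _).2 hc
    refine ⟨Iso a b (algebraMap k (AlgebraicClosure k) c * ∏ i ∈ I, r i), ?_, ?_⟩
    · apply iso_finite (m := c ^ 2 * ∏ i ∈ I, m i) (mul_ne_zero (pow_ne_zero 2 hc) hprod) _ hf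
      rw [mul_pow, ← Finset.prod_pow, Finset.prod_congr rfl (fun i _ => hr i), map_mul, map_pow,
        map_prod]
    · intro P hP σ
      have h2 := act_comp hm hr hP I σ
      have h3 : σ (algebraMap k (AlgebraicClosure k) c * ∏ i ∈ I, r i) =
          ((∏ i ∈ I, ((sg r σ i : ℤˣ) : ℤ) : ℤ) : (AlgebraicClosure k)) * (algebraMap k (AlgebraicClosure k) c * ∏ i ∈ I, r i) := by
        rw [map_mul, AlgEquiv.commutes, map_prod, Finset.prod_congr rfl (fun i _ => sg_spec hr σ i),
          Finset.prod_mul_distrib]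
        push_cast
        ring
      have hr0 : algebraMap k (AlgebraicClosure k) c * ∏ i ∈ I, r i ≠ 0 :=
        mul_ne_zero hc' (Finset.prod_ne_zero_iff.2 fun i _ => r_ne hm hr i)
      constructor
      · intro h4
        rw [h4] at h3
        have h5 : ((∏ i ∈ I, ((sg r σ i : ℤˣ) : ℤ) : ℤ) : (AlgebraicClosure k)) = 1 := by
          have h6 := mul_right_cancel₀ hr0 ((one_mul _).trans h3)
          exact h6.symm
        have h6 : (∏ i ∈ I, ((sg r σ i : ℤˣ) : ℤ)) = 1 := by exact_mod_cast h5
        rw [h2, h6, one_smul]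
      · intro h4
        rw [h4] at h3
        have h5 : ((∏ i ∈ I, ((sg r σ i : ℤˣ) : ℤ) : ℤ) : (AlgebraicClosure k)) = -1 := by
          have h6 := mul_right_cancel₀ hr0 ((neg_one_mul _).trans h3)
          exact h6.symm
        have h6 : (∏ i ∈ I, ((sg r σ i : ℤˣ) : ℤ)) = -1 := by exact_mod_cast h5
        rw [h2, h6, neg_one_smul]
  choose F hF1 hF2 using h1
  have h2 : (Set.pi Set.univ F).Finite := Set.Finite.pi fun I => hF1 I
  have h3 : ((fun g : Finset ι → Pt (sw a b) (AlgebraicClosure k) => ∑ I ∈ (Finset.univ : Finset ι).powerset, g I) ''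
      (Set.pi Set.univ F)).Finite := h2.image _
  have h4 : (⋃ Q ∈ ((fun g : Finset ι → Pt (sw a b) (AlgebraicClosure k) =>
      ∑ I ∈ (Finset.univ : Finset ι).powerset, g I) '' (Set.pi Set.univ F)),
      {P : Pt (sw a b) (AlgebraicClosure k) | 2 ^ (Fintype.card ι) • P = Q}).Finite :=
    Set.Finite.biUnion h3 fun Q _ => fib_pow _ Q
  refine h4.subset ?_
  intro P hP
  rw [Set.mem_iUnion₂]
  refine ⟨∑ I ∈ (Finset.univ : Finset ι).powerset, comp r P I, ⟨fun I => comp r P I, ?_, rfl⟩, ?_⟩
  · intro I _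
    exact hF2 I P hP
  · exact (sum_comp P hP).symm

end chars

end Pool.Agent.L0h52.BJ
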