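import Mathlib

/-!
# Points on `c_1 x_1² + ... + c_n x_n² = x³ + a x + b`, `n` odd, over the fields with `p` elements
-/

set_option autoImplicit false

open scoped Classical

namespace Pool.Agent.L0h52.BJ.Quad

open Finset

section field

variable {F : Type} [Field F] [Fintype F]

/-- the quadratic character -/
noncomputable def ch (a : F) : ℤ := quadraticChar F a

lemma ch_mul (a b : F) : ch (a * b) = ch a * ch b := by
  unfold ch
  exact map_mul _ a b

lemma ch_zero : ch (0 : F) = 0 := by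
  unfold ch
  exact quadraticChar_zero

lemma ch_sq {a : F} (ha : a ≠ 0) : ch a * ch a = 1 := by
  unfold ch
  rw [← sq]
  exact quadraticChar_sq_one ha

variable (hF : ringChar F ≠ 2)

include hF in
lemma card_sq (t : F) : ∑ y : F, (if y ^ 2 = t then (1 : ℤ) else 0) = 1 + ch t := by
  have h := quadraticChar_card_sqrts hF t
  rw [Finset.sum_boole]
  unfold ch
  rw [add_comm, ← h]
  congr 1
  congr 1
  ext x
  simp

include hF in
lemma sum_sq (g : F → ℤ) : ∑ y : F, g (y ^ 2) = ∑ t : F, (1 + ch t) * g t := by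
  have h1 : ∀ y : F, g (y ^ 2) = ∑ t : F, (if y ^ 2 = t then (1 : ℤ) else 0) * g t := by
    intro y
    simp
  rw [Finset.sum_congr rfl fun y _ => h1 y, Finset.sum_comm]
  refine Finset.sum_congr rfl fun t _ => ?_
  rw [← Finset.sum_mul, card_sq hF]

include hF in
lemma sum_ch : ∑ t : F, ch t = 0 := by
  unfold ch
  exact quadraticChar_sum_zero hF

include hF in
lemma sum_lin {α : F} (hα : α ≠ 0) (γ : F) : ∑ t : F, ch (α * t + γ) = 0 := by
  have h1 : ∑ t : F, ch (α * t + γ) = ∑ t : F, ch t := by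
    refine Fintype.sum_bijective (fun t : F => α * t + γ) ?_ _ _ fun t => rfl
    refine (Finite.injective_iff_bijective).1 fun s t hst => ?_
    have h2 : α * s + γ = α * t + γ := hst
    exact mul_left_cancel₀ hα (add_right_cancel h2)
  rw [h1, sum_ch hF]

include hF in
lemma sum_jac : ∑ t : F, ch t * ch (1 - t) = -ch (-1 : F) := by
  have h1 : (quadraticChar F)⁻¹ = quadraticChar F := (quadraticChar_isQuadratic (F := F)).inv
  have h2 := jacobiSum_nontrivial_inv (quadraticChar_ne_one hF)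
  rw [h1] at h2
  exact h2

include hF in
/-- the sum over a quadratic polynomial -/
lemma sum_quad {α : F} (hα : α ≠ 0) (γ : F) :
    ∑ y : F, ch (α * y ^ 2 + γ) = ch α * ((if γ = 0 then (Fintype.card F : ℤ) else 0) - 1) := by
  rw [sum_sq hF fun t => ch (α * t + γ)]
  have h1 : ∑ t : F, (1 + ch t) * ch (α * t + γ) =
      ∑ t : F, ch (α * t + γ) + ∑ t : F, ch t * ch (α * t + γ) := by
    rw [← Finset.sum_add_distrib]
    refine Finset.sum_congr rfl fun t _ => ?_
    ring
  rw [h1, sum_lin hF hα, zero_add]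
  by_cases hγ : γ = 0
  · subst hγ
    rw [if_pos rfl]
    have h2 : ∀ t : F, ch t * ch (α * t + 0) = ch α * (1 - if t = 0 then 1 else 0) := by
      intro t
      rw [add_zero, ch_mul]
      by_cases ht : t = 0
      · rw [ht, ch_zero]; simp
      · rw [if_neg ht]
        linear_combination ch α * ch_sq ht
    rw [Finset.sum_congr rfl fun t _ => h2 t, ← Finset.mul_sum, Finset.sum_sub_distrib]
    simp
  · rw [if_neg hγ]
    have hc : -γ / α ≠ 0 := div_ne_zero (neg_ne_zero.2 hγ) hα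
    have h2 : ∑ t : F, ch t * ch (α * t + γ) =
        ∑ s : F, ch (-γ / α * s) * ch (α * (-γ / α * s) + γ) := by
      symm
      refine Fintype.sum_bijective (fun s : F => -γ / α * s) ?_ _ _ fun s => rfl
      refine (Finite.injective_iff_bijective).1 fun s t hst => ?_
      exact mul_left_cancel₀ hc hst
    have h3 : ∀ s : F, ch (-γ / α * s) * ch (α * (-γ / α * s) + γ) =
        (ch (-γ / α) * ch γ) * (ch s * ch (1 - s)) := by
      intro s
      have e : α * (-γ / α * s) + γ = γ * (1 - s) := by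
        field_simp
        ring
      rw [e, ch_mul, ch_mul]
      ring
    rw [h2, Finset.sum_congr rfl fun s _ => h3 s, ← Finset.mul_sum, sum_jac hF]
    have h4 : ch (-γ / α) * ch γ * ch (-1 : F) = ch α := by
      rw [← ch_mul, ← ch_mul]
      have e : -γ / α * γ * (-1) = α * ((γ / α) * (γ / α)) := by
        field_simp
      rw [e, ch_mul, ch_mul, ch_sq (div_ne_zero hγ hα), mul_one]
    linear_combination -h4

/-- the number of the solutions of `∑ c_i x_i² = u` -/
noncomputable def T {n : ℕ} (c : Fin n → F) (u : F) : ℤ :=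
  ∑ x : Fin n → F, if ∑ i, c i * x i ^ 2 = u then 1 else 0

lemma T_succ {n : ℕ} (c : Fin (n + 1) → F) (u : F) :
    T c u = ∑ y : F, T (fun i => c i.succ) (u - c 0 * y ^ 2) := by
  unfold T
  rw [← (Fin.consEquiv fun _ : Fin (n + 1) => F).sum_comp, Fintype.sum_prod_type]
  refine Finset.sum_congr rfl fun y _ => Finset.sum_congr rfl fun x _ => ?_
  refine if_congr ?_ rfl rfl
  rw [Fin.sum_univ_succ]
  simp only [Fin.consEquiv_apply, Fin.cons_zero, Fin.cons_succ]
  constructor
  · intro h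
    rw [← h]
    ring
  · intro h
    rw [h]
    ring

include hF in
lemma T_one (c : Fin 1 → F) (hc : c 0 ≠ 0) (u : F) : T c u = 1 + ch (c 0 * u) := by
  rw [T_succ]
  have h1 : ∀ y : F, T (fun i : Fin 0 => c i.succ) (u - c 0 * y ^ 2) =
      if y ^ 2 = u / c 0 then 1 else 0 := by
    intro y
    unfold T
    have e : ∀ x : Fin 0 → F, ∑ i, c (Fin.succ i) * x i ^ 2 = 0 := fun x => by simp
    simp only [e]
    rw [Finset.sum_const, Finset.card_univ, Fintype.card_unique, one_smul]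
    refine if_congr ?_ rfl rfl
    rw [eq_div_iff hc]
    constructor
    · intro h
      linear_combination h
    · intro h
      linear_combination h
  rw [Finset.sum_congr rfl fun y _ => h1 y, card_sq hF]
  have e : c 0 * u = (u / c 0) * (c 0 * c 0) := by
    field_simp
  rw [e, ch_mul, ch_mul, ch_sq hc, mul_one]

include hF in
/-- **the number of the points of a quadric in an odd number of variables** -/
theorem T_odd : ∀ (k n : ℕ), n = 2 * k + 1 → ∀ c : Fin n → F, (∀ i, c i ≠ 0) → ∀ u : F,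
    T c u = (Fintype.card F : ℤ) ^ (2 * k) +
      (Fintype.card F : ℤ) ^ k * ch ((-1) ^ k * (∏ i, c i) * u) := by
  intro k
  induction k with
  | zero =>
    intro n hn c hc u
    obtain rfl : n = 1 := by omega
    rw [T_one hF c (hc 0)]
    simp
  | succ k ih =>
    intro n hn c hc u
    obtain ⟨m, rfl⟩ : ∃ m, n = m + 1 + 1 := ⟨2 * k + 1, by omega⟩
    have hm : m = 2 * k + 1 := by omega
    rw [T_succ]
    simp only [T_succ (n := m)]
    set δ : F := (-1) ^ k * ∏ i : Fin m, c i.succ.succ with hδ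
    set q : ℤ := (Fintype.card F : ℤ) with hq
    have hδ0 : δ ≠ 0 := by
      rw [hδ]
      exact mul_ne_zero (pow_ne_zero _ (by norm_num)) (Finset.prod_ne_zero_iff.2 fun i _ => hc _)
    have h1 : ∀ y z : F, T (fun i : Fin m => c i.succ.succ) (u - c 0 * y ^ 2 - c (Fin.succ 0) * z ^ 2) =
        q ^ (2 * k) + q ^ k * ch ((-δ * c (Fin.succ 0)) * z ^ 2 + δ * (u - c 0 * y ^ 2)) := by
      intro y z
      rw [ih m hm _ (fun i => hc _)]
      congr 3
      rw [hδ]
      ring
    have hα : -δ * c (Fin.succ 0) ≠ 0 := mul_ne_zero (neg_ne_zero.2 hδ0) (hc _)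
    have h2 : ∀ y : F, ∑ z : F, T (fun i : Fin m => c i.succ.succ)
        (u - c 0 * y ^ 2 - c (Fin.succ 0) * z ^ 2) =
        q ^ (2 * k + 1) + q ^ k * (ch (-δ * c (Fin.succ 0)) *
          (q * (if y ^ 2 = u / c 0 then 1 else 0) - 1)) := by
      intro y
      rw [Finset.sum_congr rfl fun z _ => h1 y z, Finset.sum_add_distrib, ← Finset.mul_sum,
        sum_quad hF hα, Finset.sum_const, Finset.card_univ, nsmul_eq_mul, ← hq]
      have e : (if δ * (u - c 0 * y ^ 2) = 0 then q else 0) =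
          q * (if y ^ 2 = u / c 0 then 1 else 0) := by
        rw [mul_ite, mul_one, mul_zero]
        refine if_congr ?_ rfl rfl
        rw [mul_eq_zero, or_iff_right hδ0, eq_div_iff (hc 0)]
        constructor
        · intro h
          linear_combination -h
        · intro h
          linear_combination -h
      rw [e]
      ring
    rw [Finset.sum_congr rfl fun y _ => h2 y, Finset.sum_add_distrib, ← Finset.mul_sum,
      ← Finset.mul_sum, Finset.sum_sub_distrib, ← Finset.mul_sum, card_sq hF, Finset.sum_const,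
      Finset.sum_const, Finset.card_univ, nsmul_eq_mul, nsmul_eq_mul, ← hq]
    have h3 : ch ((-1) ^ (k + 1) * (∏ i, c i) * u) = ch (-δ * c (Fin.succ 0)) * ch (u / c 0) := by
      rw [← ch_mul]
      have e : (-1) ^ (k + 1) * (∏ i, c i) * u = (-δ * c (Fin.succ 0) * (u / c 0)) * (c 0 * c 0) := by
        rw [Fin.prod_univ_succ, Fin.prod_univ_succ, hδ]
        have := hc 0
        field_simp
        ring
      rw [e, ch_mul, ch_mul (c 0), ch_sq (hc 0), mul_one]
    rw [h3]
    ring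

end field

lemma card_sum {α : Type} [Fintype α] (P : α → Prop) :
    (Nat.card {q : α // P q} : ℤ) = ∑ q : α, if P q then 1 else 0 := by
  rw [Nat.card_eq_fintype_card, Fintype.card_subtype, Finset.sum_boole]

/-- **points on quadric bundles and on elliptic curves** -/
theorem card_eq {p : ℕ} [hp : Fact p.Prime] (hp2 : p ≠ 2) (a b : ℤ) (k : ℕ)
    (c : Fin (2 * k + 1) → ℤ) (hc : ∀ i, ¬ (p : ℤ) ∣ c i) {δ : ℤ} (hδ : δ = (-1) ^ k * ∏ i, c i) :
    (p : ℤ) ^ (2 * k + 1) - (Nat.card {q : ZMod p × (Fin (2 * k + 1) → ZMod p) //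
        ∑ i, (c i : ZMod p) * q.2 i ^ 2 = q.1 ^ 3 + (a : ZMod p) * q.1 + (b : ZMod p)} : ℤ) =
      (p : ℤ) ^ k * ((p : ℤ) - (Nat.card {q : ZMod p × ZMod p //
        q.2 ^ 2 = q.1 ^ 3 + ((a * δ ^ 2 : ℤ) : ZMod p) * q.1 + ((b * δ ^ 3 : ℤ) : ZMod p)} : ℤ)) := by
  have hF : ringChar (ZMod p) ≠ 2 := by
    rw [ZMod.ringChar_zmod_n]
    exact hp2
  have hc' : ∀ i, ((c i : ℤ) : ZMod p) ≠ 0 := fun i h =>
    hc i ((ZMod.intCast_zmod_eq_zero_iff_dvd _ _).1 h)
  have hcard : (Fintype.card (ZMod p) : ℤ) = p := by rw [ZMod.card]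
  set d : ZMod p := (-1) ^ k * ∏ i, ((c i : ℤ) : ZMod p) with hd
  have hd0 : d ≠ 0 := mul_ne_zero (pow_ne_zero _ (by norm_num))
    (Finset.prod_ne_zero_iff.2 fun i _ => hc' i)
  have hdd : ((δ : ℤ) : ZMod p) = d := by
    rw [hδ, hd]
    push_cast
    rfl
  have h1 : (Nat.card {q : ZMod p × (Fin (2 * k + 1) → ZMod p) //
      ∑ i, (c i : ZMod p) * q.2 i ^ 2 = q.1 ^ 3 + (a : ZMod p) * q.1 + (b : ZMod p)} : ℤ) =
      ∑ s : ZMod p, T (fun i => ((c i : ℤ) : ZMod p)) (s ^ 3 + (a : ZMod p) * s + (b : ZMod p)) := by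
    rw [card_sum, Fintype.sum_prod_type]
    rfl
  have h2 : (Nat.card {q : ZMod p × ZMod p //
      q.2 ^ 2 = q.1 ^ 3 + ((a * δ ^ 2 : ℤ) : ZMod p) * q.1 + ((b * δ ^ 3 : ℤ) : ZMod p)} : ℤ) =
      ∑ s : ZMod p, (1 + ch (s ^ 3 + ((a * δ ^ 2 : ℤ) : ZMod p) * s + ((b * δ ^ 3 : ℤ) : ZMod p))) := by
    rw [card_sum, Fintype.sum_prod_type]
    exact Finset.sum_congr rfl fun s _ =>
      card_sq hF (s ^ 3 + ((a * δ ^ 2 : ℤ) : ZMod p) * s + ((b * δ ^ 3 : ℤ) : ZMod p))
  have h3 : ∑ s : ZMod p, ch (s ^ 3 + ((a * δ ^ 2 : ℤ) : ZMod p) * s + ((b * δ ^ 3 : ℤ) : ZMod p)) =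
      ∑ s : ZMod p, ch (d * (s ^ 3 + (a : ZMod p) * s + (b : ZMod p))) := by
    symm
    refine Fintype.sum_bijective (fun s : ZMod p => d * s) ?_ _ _ fun s => ?_
    · exact (Finite.injective_iff_bijective).1 fun s t hst => mul_left_cancel₀ hd0 hst
    · have e : (d * s) ^ 3 + ((a * δ ^ 2 : ℤ) : ZMod p) * (d * s) + ((b * δ ^ 3 : ℤ) : ZMod p) =
          (d * (s ^ 3 + (a : ZMod p) * s + (b : ZMod p))) * (d * d) := by
        push_cast
        rw [hdd]
        ring
      show ch (d * (s ^ 3 + (a : ZMod p) * s + (b : ZMod p))) = ch ((d * s) ^ 3 +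
        ((a * δ ^ 2 : ℤ) : ZMod p) * (d * s) + ((b * δ ^ 3 : ℤ) : ZMod p))
      rw [e, ch_mul _ (d * d), ch_mul d d, ch_sq hd0, mul_one]
  rw [h1, h2, Finset.sum_add_distrib, h3]
  have h4 : ∀ s : ZMod p, T (fun i => ((c i : ℤ) : ZMod p))
      (s ^ 3 + (a : ZMod p) * s + (b : ZMod p)) = (p : ℤ) ^ (2 * k) +
        (p : ℤ) ^ k * ch (d * (s ^ 3 + (a : ZMod p) * s + (b : ZMod p))) := by
    intro s
    rw [T_odd hF k _ rfl _ hc', hcard]
  rw [Finset.sum_congr rfl fun s _ => h4 s, Finset.sum_add_distrib, ← Finset.mul_sum,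
    Finset.sum_const, Finset.sum_const, Finset.card_univ, nsmul_eq_mul, nsmul_eq_mul, hcard]
  ring

end Pool.Agent.L0h52.BJ.Quad
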